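import Pool.Agent.H31.EH.Targets

/-!
# Row MEA of ehf_modules (MP_e21eee_nt): measurability and bounds
-/

set_option autoImplicit false

open Finset MeasureTheory

namespace Pool.Agent.H45.EH

open Pool.Agent.H24.CL Pool.Agent.H24.LV Pool.Agent.H26.ES Pool.Agent.H31.EH

theorem DS_one_le {S : Finset ℕ} (h : ∀ p ∈ S, p.Prime) : 1 ≤ DS S :=
  Nat.one_le_iff_ne_zero.2 (Finset.prod_ne_zero_iff.2 fun p hp => (h p hp).ne_zero)

theorem DS_quot {S S' : Finset ℕ} (h : ∀ p ∈ S, p.Prime) (hs : S' ⊆ S) : 1 ≤ DS S / DS S' :=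
  Nat.div_pos (Nat.le_of_dvd (DS_one_le h) (Finset.prod_dvd_prod_of_subset _ _ _ hs))
    (DS_one_le fun p hp => h p (hs hp))

theorem phM {k : ℕ} (hMP : T_MP) {D : ℕ} (h : 1 ≤ D) (y : ℕ) :
    Measurable (phi D y : X k → X k) := (hMP k D y h).1.measurable

/-- measurability of a number of indices -/
theorem meas_card {k : ℕ} {ι : Type} (s : Finset ι) (p : X k → ι → Prop)
    [∀ b, DecidablePred (p b)] (h : ∀ z ∈ s, MeasurableSet {b : X k | p b z}) :
    Measurable fun b : X k => ((s.filter (p b)).card : ℝ) := by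
  classical
  have h1 : (fun b : X k => ((s.filter (p b)).card : ℝ)) = fun b => ∑ z ∈ s,
      ({b : X k | p b z} : Set (X k)).indicator (fun _ => (1 : ℝ)) b := by
    funext b
    rw [Finset.card_filter]
    push_cast
    refine Finset.sum_congr rfl fun z _ => ?_
    by_cases hz : p b z
    · rw [Set.indicator_of_mem (by exact hz), if_pos hz]
    · rw [Set.indicator_of_notMem (by exact hz), if_neg hz]
  rw [h1]
  exact Finset.measurable_sum _ fun z hz => measurable_const.indicator (h z hz)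

theorem card_div_le {ι : Type} (s : Finset ι) (p : ι → Prop) [DecidablePred p] (D : ℕ)
    (hD : s.card = D) : 0 ≤ ((s.filter p).card : ℝ) / D ∧ ((s.filter p).card : ℝ) / D ≤ 1 := by
  refine ⟨by positivity, div_le_one_of_le₀ ?_ (Nat.cast_nonneg _)⟩
  rw [← hD]
  exact_mod_cast Finset.card_filter_le s p

/-- the part of the data which is needed -/
structure MD {k : ℕ} (S : Finset ℕ) (V : Set (X k)) (Gd : ℕ → ℕ → Set (X k)) : Prop where
  pr : ∀ p ∈ S, p.Prime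
  mV : MeasurableSet V
  mG : ∀ p ∈ S, ∀ y, MeasurableSet (Gd p y)

theorem MD.mono {k : ℕ} {S S' : Finset ℕ} {V : Set (X k)} {Gd : ℕ → ℕ → Set (X k)}
    (h : MD S V Gd) (hs : S' ⊆ S) : MD S' V Gd :=
  ⟨fun p hp => h.pr p (hs hp), h.mV, fun p hp => h.mG p (hs hp)⟩

theorem m_Star {k : ℕ} (hMP : T_MP) {S : Finset ℕ} {V : Set (X k)} {Gd : ℕ → ℕ → Set (X k)}
    (h : MD S V Gd) (x : ℕ) : MeasurableSet {b : X k | StarP S V Gd b x} := by
  unfold StarP
  apply MeasurableSet.inter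
  · exact (phM hMP (DS_one_le h.pr) x) h.mV
  · have h1 : {b : X k | ∀ p ∈ S, phi (DS S / p) (x % (DS S / p)) b ∈ Gd p (x / (DS S / p))} =
        ⋂ p ∈ S, {b : X k | phi (DS S / p) (x % (DS S / p)) b ∈ Gd p (x / (DS S / p))} := by
      ext b
      simp only [Set.mem_ofPred_eq, Set.mem_iInter]
    change MeasurableSet {b : X k | ∀ p ∈ S,
      phi (DS S / p) (x % (DS S / p)) b ∈ Gd p (x / (DS S / p))}
    rw [h1]
    apply Finset.measurableSet_biInter
    intro p hp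
    have hpos : 1 ≤ DS S / p := Nat.div_pos (Nat.le_of_dvd (DS_one_le h.pr)
      (Finset.dvd_prod_of_mem _ hp)) (h.pr p hp).pos
    exact (phM hMP hpos _) (h.mG p hp _)

theorem m_den {k : ℕ} (hMP : T_MP) {S : Finset ℕ} {V : Set (X k)} {Gd : ℕ → ℕ → Set (X k)}
    (h : MD S V Gd) : Measurable fun b : X k => den S V Gd b := by
  classical
  unfold den
  apply Measurable.div_const
  exact meas_card _ _ fun z _ => m_Star hMP h z

theorem m_Good {k : ℕ} (hMP : T_MP) {S : Finset ℕ} {V : Set (X k)} {Gd : ℕ → ℕ → Set (X k)}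
    (h : MD S V Gd) (kap : ℝ) (x : ℕ) : MeasurableSet {b : X k | Good S V Gd kap b x} := by
  unfold Good
  apply MeasurableSet.inter (m_Star hMP h x)
  have h1 : {b : X k | ∀ S' ⊆ S, kap ≤ den S' V Gd
      (phi (DS S / DS S') (x % (DS S / DS S')) b)} =
      ⋂ S' ∈ S.powerset, {b : X k | kap ≤ den S' V Gd
        (phi (DS S / DS S') (x % (DS S / DS S')) b)} := by
    ext b
    simp only [Set.mem_ofPred_eq, Set.mem_iInter, Finset.mem_powerset]
  change MeasurableSet {b : X k | ∀ S' ⊆ S, kap ≤ den S' V Gd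
      (phi (DS S / DS S') (x % (DS S / DS S')) b)}
  rw [h1]
  apply Finset.measurableSet_biInter
  intro S' hS'
  have hs : S' ⊆ S := Finset.mem_powerset.1 hS'
  exact measurableSet_le measurable_const
    ((m_den hMP (h.mono hs)).comp (phM hMP (DS_quot h.pr hs) _))

theorem m_Two {k : ℕ} (hMP : T_MP) {S₁ S₂ : Finset ℕ} {V : Set (X k)} {Gd : ℕ → ℕ → Set (X k)}
    (h1 : MD S₁ V Gd) (h2 : MD S₂ V Gd) (kap : ℝ) (x : ℕ) :
    MeasurableSet {b : X k | Two S₁ S₂ V Gd kap b x} := by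
  unfold Two
  exact ((phM hMP (DS_one_le h2.pr) _) (m_Good hMP h1 kap _)).inter
    ((phM hMP (DS_one_le h1.pr) _) (m_Good hMP h2 kap _))

theorem m_Light {k : ℕ} (hMP : T_MP) {S₁ S₂ : Finset ℕ} {V : Set (X k)}
    {Gd : ℕ → ℕ → Set (X k)} (h1 : MD S₁ V Gd) (h2 : MD S₂ V Gd) (kap kap' : ℝ) (x : ℕ) :
    MeasurableSet {b : X k | Light S₁ S₂ V Gd kap kap' b x} := by
  classical
  have h3 : Measurable fun b : X k => (((range (DS S₂)).filter fun z =>
      Two S₁ S₂ V Gd kap b (x % DS S₁ + DS S₁ * z)).card : ℝ) :=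
    meas_card _ (fun b z => Two S₁ S₂ V Gd kap b (x % DS S₁ + DS S₁ * z))
      fun z _ => m_Two hMP h1 h2 kap _
  exact MeasurableSet.inter (m_Two hMP h1 h2 kap x)
    (measurableSet_lt h3 (measurable_const (a := kap' * DS S₂)))

theorem m_add {k : ℕ} {s : Set (X k)} (hs : MeasurableSet s) (κ : X k) :
    MeasurableSet {b : X k | b + κ ∈ s} := (measurable_id.add_const κ) hs

theorem m_DP {k : ℕ} (hMP : T_MP) {S₁ S₂ : Finset ℕ} {V : Set (X k)}
    {Gd : ℕ → ℕ → Set (X k)} (h : MD (S₁ ∪ S₂) V Gd) (y : ℕ) :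
    Measurable fun b : X k => DP S₁ S₂ V Gd b y := by
  classical
  unfold DP
  refine meas_card _ _ fun z _ => ?_
  have e1 : {b : X k | ∃ κ ∈ Kr k (DS S₁) y, ∃ κ' ∈ Kr k (DS S₁) y,
      κ - κ' ∉ H k (DS S₁) 1 ∧ StarP (S₁ ∪ S₂) V Gd (b + κ) (y + DS S₁ * z.1) ∧
        StarP (S₁ ∪ S₂) V Gd (b + κ') (y + DS S₁ * z.2)} =
      ⋃ κ ∈ Kr k (DS S₁) y, ⋃ κ' ∈ Kr k (DS S₁) y, {b : X k | κ - κ' ∉ H k (DS S₁) 1 ∧
        StarP (S₁ ∪ S₂) V Gd (b + κ) (y + DS S₁ * z.1) ∧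
        StarP (S₁ ∪ S₂) V Gd (b + κ') (y + DS S₁ * z.2)} := by
    ext b
    simp only [Set.mem_ofPred_eq, Set.mem_iUnion, exists_prop]
  rw [e1]
  refine Finset.measurableSet_biUnion _ fun κ _ => Finset.measurableSet_biUnion _ fun κ' _ => ?_
  refine (MeasurableSet.const _).inter (MeasurableSet.inter ?_ ?_)
  · exact m_add (m_Star hMP h (y + DS S₁ * z.1)) κ
  · exact m_add (m_Star hMP h (y + DS S₁ * z.2)) κ'

theorem m_od {k : ℕ} (hMP : T_MP) {S₁ S₂ : Finset ℕ} {V : Set (X k)}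
    {Gd : ℕ → ℕ → Set (X k)} (h : MD (S₁ ∪ S₂) V Gd) (y : ℕ) :
    Measurable fun b : X k => od S₁ S₂ V Gd b y := by
  classical
  unfold od
  apply Measurable.div_const
  refine meas_card _ _ fun z _ => ?_
  have e1 : {b : X k | ∃ κ ∈ Kr k (DS S₁) y, κ ∉ H k (DS S₁) 1 ∧
      StarP (S₁ ∪ S₂) V Gd (b + κ) (y + DS S₁ * z)} =
      ⋃ κ ∈ Kr k (DS S₁) y, {b : X k | κ ∉ H k (DS S₁) 1 ∧
        StarP (S₁ ∪ S₂) V Gd (b + κ) (y + DS S₁ * z)} := by
    ext b
    simp only [Set.mem_ofPred_eq, Set.mem_iUnion, exists_prop]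
  rw [e1]
  refine Finset.measurableSet_biUnion _ fun κ _ => ?_
  exact (MeasurableSet.const _).inter (m_add (m_Star hMP h (y + DS S₁ * z)) κ)

theorem m_sd {k : ℕ} (hMP : T_MP) {S₁ S₂ : Finset ℕ} {V : Set (X k)}
    {Gd : ℕ → ℕ → Set (X k)} (h : MD (S₁ ∪ S₂) V Gd) (y : ℕ) :
    Measurable fun b : X k => sd S₁ S₂ V Gd b y := by
  classical
  unfold sd
  apply Measurable.div_const
  exact meas_card _ _ fun z _ => m_Star hMP h _

theorem pf_MEA (hMP : T_MP) : T_MEA := by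
  classical
  intro k S₁ S₂ V Ge Gd P m τ Ω hS
  have h : MD (S₁ ∪ S₂) V Gd := ⟨fun p hp => (hS.pr p hp).1, hS.mV, hS.mG⟩
  have h1 : MD S₁ V Gd := h.mono Finset.subset_union_left
  have h2 : MD S₂ V Gd := h.mono Finset.subset_union_right
  refine ⟨m_Star hMP h1, m_den hMP h1, m_Good hMP h1, m_Two hMP h1 h2, m_Light hMP h1 h2,
    m_DP hMP h, m_od hMP h, m_sd hMP h, fun b => ?_, fun b y => ?_, fun b y => ?_, fun b y => ?_⟩
  · exact card_div_le _ _ _ (Finset.card_range _)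
  · refine ⟨Nat.cast_nonneg _, ?_⟩
    have hc : ((range (DS S₂) ×ˢ range (DS S₂)).card : ℝ) = (DS S₂ : ℝ) ^ 2 := by
      rw [Finset.card_product, Finset.card_range]
      push_cast
      ring
    rw [← hc]
    unfold DP
    exact_mod_cast Finset.card_filter_le _ _
  · exact card_div_le _ _ _ (Finset.card_range _)
  · exact card_div_le _ _ _ (Finset.card_range _)

end Pool.Agent.H45.EH
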